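import Mathlib
import Pool.Agent.L7h6.PF.Slp
import Pool.Agent.Y787.PInst

/-!
# `p`-adic Schanuel conjecture: polynomials computed with few additions, of any degree

For every `g, m, A` there is a constant `c` such that for every `x ≥ 16`, every prime `p` and
arbitrary elements `t_1, ..., t_g` of the algebraic closure of `ℚ_p`, for all but at most
`c (log log x) ^ c / log x · x ^ m` of the `m`-tuples `n` of integers in `[1, x]` the `p`-adic
logarithms of the `n i` have the following property: no nonzero polynomial in `m` variables which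
can be computed from the variables, the numbers `t_1, ..., t_g` and algebraic numbers with at most
`A` additions and arbitrarily many multiplications vanishes at `(log_p n_1, ..., log_p n_m)`. There
is no bound for the degrees, and the constant does not depend on `p`.
-/

set_option autoImplicit false

namespace Pool.Agent.Results.MP_c50dba_nt.FewAdditions

open Pool.Agent.R351 Pool.Agent.L7h6.PF

/-- `L` is the Iwasawa `p`-adic logarithm on the algebraic closure of `ℚ_p`. -/
structure IsIwasawaLog (p : ℕ) [Fact p.Prime] (L : PadicAlgCl p → PadicAlgCl p) : Prop where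
  mul : ∀ x y : PadicAlgCl p, x ≠ 0 → y ≠ 0 → L (x * y) = L x + L y
  prime : L ((p : ℕ) : PadicAlgCl p) = 0
  ser : ∀ z : PadicAlgCl p, ‖z‖ < 1 →
    HasSum (fun n : ℕ => (-1 : PadicAlgCl p) ^ n * z ^ (n + 1) / ((n : PadicAlgCl p) + 1))
      (L (1 + z))

/-- The polynomials `G 0, …, G (A - 1)` are computed with one addition each: `G l` is the sum of two
products of powers of the variables, of the numbers `t o`, of the earlier polynomials
`G 0, …, G (l - 1)`, and of an algebraic number. -/
def Computed {p : ℕ} [Fact p.Prime] {g m : ℕ} (t : Fin g → PadicAlgCl p) (A : ℕ)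
    (G : ℕ → MvPolynomial (Fin m) (PadicAlgCl p)) : Prop :=
  ∃ (c : ℕ → Bool → algebraicClosure ℚ (PadicAlgCl p)) (u : ℕ → Bool → Fin g → ℕ)
    (a : ℕ → Bool → Fin m → ℕ) (h : ℕ → Bool → ℕ → ℕ), ∀ l < A, G l = ∑ b : Bool,
      MvPolynomial.C ((c l b : PadicAlgCl p) * ∏ o, t o ^ u l b o) *
        (∏ i, MvPolynomial.X i ^ a l b i) * ∏ l' ∈ Finset.range l, G l' ^ h l b l'

theorem Computed.cmp {p : ℕ} [Fact p.Prime] {g m : ℕ} {t : Fin g → PadicAlgCl p} {A : ℕ}
    {G : ℕ → MvPolynomial (Fin m) (PadicAlgCl p)}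
    (h : Computed t A G) : Cmp (algebraicClosure ℚ (PadicAlgCl p)) (btm m t) A G := by
  obtain ⟨c, u, a, e, h⟩ := h
  refine ⟨c, fun l b j => Sum.elim (u l b) (a l b) j, e, fun l hl => ?_⟩
  rw [h l hl]
  refine Finset.sum_congr rfl fun b _ => ?_
  rw [Fintype.prod_sum_type, Algebra.smul_def, IsScalarTower.algebraMap_apply
    (algebraicClosure ℚ (PadicAlgCl p)) (PadicAlgCl p) (MvPolynomial (Fin m) (PadicAlgCl p))]
  unfold btm
  simp only [Sum.elim_inl, Sum.elim_inr, map_mul, map_prod, map_pow, MvPolynomial.algebraMap_eq]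
  have h1 : algebraMap (algebraicClosure ℚ (PadicAlgCl p)) (PadicAlgCl p) (c l b) =
    (c l b : PadicAlgCl p) := rfl
  rw [h1]
  ring

open Classical in
/-- **Main result.** -/
theorem result (g m A : ℕ) : ∃ c : ℕ, ∀ x : ℕ, 16 ≤ x → ∀ (p : ℕ) [Fact p.Prime]
    (L : PadicAlgCl p → PadicAlgCl p), IsIwasawaLog p L → ∀ t : Fin g → PadicAlgCl p,
    (((Fintype.piFinset fun _ : Fin m => Finset.Icc 1 x).filter fun n =>
      ¬ ∀ G : ℕ → MvPolynomial (Fin m) (PadicAlgCl p), Computed t A G →
        ∀ j < A, G j ≠ 0 → MvPolynomial.eval (fun i => L (n i : PadicAlgCl p)) (G j) ≠ 0).card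
          : ℝ) ≤ c * Real.log (Real.log x) ^ c / Real.log x * (x : ℝ) ^ m := by
  obtain ⟨c, hc⟩ := Pool.Agent.L7h6.PF.rate_slp A m g
  refine ⟨c, fun x hx p _ L hL t => ?_⟩
  have hL' : Pool.Agent.W245.PB.IsIwasawaLog p L := ⟨hL.1, hL.2, hL.3⟩
  have hcount : Countable (Pool.Agent.W245.PB.QbarP p) := by
    have h2 : Algebra.IsAlgebraic ℚ (Pool.Agent.W245.PB.QbarP p) :=
      (algebraicClosure.isAlgClosure ℚ (PadicAlgCl p)).isAlgebraic
    have h3 : Cardinal.mk (Pool.Agent.W245.PB.QbarP p) ≤ max (Cardinal.mk ℚ) Cardinal.aleph0 :=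
      Algebra.IsAlgebraic.cardinalMk_le_max ℚ (Pool.Agent.W245.PB.QbarP p)
    rw [← Cardinal.mk_le_aleph0_iff]
    refine h3.trans (max_le ?_ le_rfl)
    exact Cardinal.mk_le_aleph0
  have hunc : Uncountable (PadicAlgCl p) := Pool.Agent.Y787.uncountable_padicAlgCl
  have hinf : InfTrd (Pool.Agent.W245.PB.QbarP p) (PadicAlgCl p) := infTrd_of_uncountable _ _
  apply hc x hx (Pool.Agent.W245.PB.QbarP p) (PadicAlgCl p) hinf
    (fun n : ℕ => L (n : PadicAlgCl p)) hL'.logLike t
  · intro a ha
    exact (Finset.mem_filter.1 ha).1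
  · intro a ha hno
    apply (Finset.mem_filter.1 ha).2
    intro G hG j hj hG0 h0
    exact hG0 (hno G hG.cmp j hj h0)

end Pool.Agent.Results.MP_c50dba_nt.FewAdditions
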