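import Pool.Agent.L7h6.PF.Hf
import Pool.Agent.Y787.PInst

/-!
# `p`-adic logarithms which are polynomials in few numbers, and the number of relations of given degree

Let `ℚ̄` be the field of algebraic numbers in the algebraic closure of `ℚ_p` and `𝓛` the space of all
linear combinations, with algebraic coefficients, of `1` and of `p`-adic logarithms of algebraic
numbers.  For every finite dimensional `ℚ̄`-space `U` of arbitrary elements of the algebraic closure
of `ℚ_p`

`dim U + ⌊(dim (U ∩ 𝓛)) ^ 2 / 4⌋ ≤ dim (U U)`.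

Hence, if `n` logarithms of algebraic numbers which are linearly independent over `ℚ` are polynomials
of degree `≤ m` with algebraic coefficients in one number, then `m ≥ ⌊(n + 1) ^ 2 / 4⌋`, and if they
are polynomials of degree `≤ m` in `t` numbers, then
`n + 1 + ⌊(n + 1) ^ 2 / 4⌋ ≤ binom (t + 2 m) t`.  Moreover the space of the polynomial relations of
degree `≤ 2` between them has dimension at most `⌊n ^ 2 / 4⌋` (the question is whether it is zero; the
space of all quadratic polynomials has dimension `(n + 1) (n + 2) / 2`), and there are similar bounds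
in all degrees.  All this holds for every tuple of linearly independent logarithms and every prime `p`.

The proof is that of the complex case, the starting result `MP_d171e3_nt.PolynomialsInFewNumbers`: for
an `s`-dimensional space `Y` and a space `V` of linear forms in `p`-adic logarithms,
`dim (Y V) ≥ s dim V - s (s - 1)` (hyperplane case of the `p`-adic linear subgroup theorem, starting
library `Pool.Agent.W254.PA`), and points of the algebra generated by `U` and `V` which kill an
`s`-dimensional subspace of `U` (starting library `Pool.Agent.W256`).  By the theorem of Brumer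
(`Pool.Agent.W245.PB`) `n` logarithms which are linearly independent over `ℚ` span with `1` a space of
dimension `n + 1` over `ℚ̄`.
-/

set_option autoImplicit false

namespace Pool.Agent.Results.MP_c50dba_nt.PolynomialsInFewNumbers

open Module

/-- `L` is the Iwasawa logarithm on the algebraic closure of `ℚ_p`. -/
structure IsIwasawaLog (p : ℕ) [Fact p.Prime] (L : PadicAlgCl p → PadicAlgCl p) : Prop where
  mul : ∀ x y : PadicAlgCl p, x ≠ 0 → y ≠ 0 → L (x * y) = L x + L y
  prime : L ((p : ℕ) : PadicAlgCl p) = 0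
  ser : ∀ z : PadicAlgCl p, ‖z‖ < 1 →
    HasSum (fun n : ℕ => (-1 : PadicAlgCl p) ^ n * z ^ (n + 1) / ((n : PadicAlgCl p) + 1))
      (L (1 + z))

/-- The field of the algebraic numbers in the algebraic closure of `ℚ_p`. -/
noncomputable abbrev QBar (p : ℕ) [Fact p.Prime] : IntermediateField ℚ (PadicAlgCl p) :=
  algebraicClosure ℚ (PadicAlgCl p)

/-- The space of all linear combinations with algebraic coefficients of `1` and of the values of `L`
at algebraic numbers. -/
noncomputable def LogForms {p : ℕ} [Fact p.Prime] (L : PadicAlgCl p → PadicAlgCl p) :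
    Submodule (QBar p) (PadicAlgCl p) :=
  Submodule.span (QBar p)
    ({1} ∪ {z | ∃ α : PadicAlgCl p, α ≠ 0 ∧ IsAlgebraic ℚ α ∧ z = L α})

/-- The space of polynomials with algebraic coefficients, of total degree at most `m`, which vanish
at the point `l`. -/
noncomputable def Relations {p : ℕ} [Fact p.Prime] {n : ℕ} (l : Fin n → PadicAlgCl p) (m : ℕ) :
    Submodule (QBar p) (MvPolynomial (Fin n) (QBar p)) :=
  MvPolynomial.restrictTotalDegree (Fin n) (QBar p) m ⊓
    LinearMap.ker (MvPolynomial.aeval l).toLinearMap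

/-- The numbers `l j` are polynomials of degree at most `m` in one number only if
`⌊(n + 1) ^ 2 / 4⌋ ≤ m`, and in `t` numbers only if
`n + 1 + ⌊(n + 1) ^ 2 / 4⌋ ≤ binom (t + 2 m) t`. -/
def FewNumbers {p : ℕ} [Fact p.Prime] {n : ℕ} (l : Fin n → PadicAlgCl p) : Prop :=
  (∀ (m : ℕ) (θ : PadicAlgCl p), (∀ j, ∃ P : Polynomial (QBar p), P.natDegree ≤ m ∧
      Polynomial.aeval θ P = l j) → (n + 1) ^ 2 / 4 ≤ m) ∧
  (∀ (t m : ℕ) (θ : Fin t → PadicAlgCl p), (∀ j, ∃ P : MvPolynomial (Fin t) (QBar p),
      P.totalDegree ≤ m ∧ MvPolynomial.aeval θ P = l j) →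
    n + 1 + (n + 1) ^ 2 / 4 ≤ (t + 2 * m).choose t)

/-- The bounds for the number of the independent relations of degree at most `2` and of degree at
most `m + 1`. -/
def FewRelations {p : ℕ} [Fact p.Prime] {n : ℕ} (l : Fin n → PadicAlgCl p) : Prop :=
  finrank (QBar p) (Relations l 2) ≤ n ^ 2 / 4 ∧
  ∀ m : ℕ, finrank (QBar p) (Relations l (m + 1)) + (n + 1 + m * ((n + 1) ^ 2 / 4)) ≤
    (n + (m + 1)).choose (m + 1)

/-- Multiplication of an arbitrary space by powers of the span of `1` and the numbers `l j`. -/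
def Expansion {p : ℕ} [Fact p.Prime] {n : ℕ} (l : Fin n → PadicAlgCl p) : Prop :=
  ∀ U : Submodule (QBar p) (PadicAlgCl p), FiniteDimensional (QBar p) U →
    n ≤ 2 * finrank (QBar p) U → ∀ m : ℕ, finrank (QBar p) U + m * ((n + 1) ^ 2 / 4) ≤
      finrank (QBar p) (U * Submodule.span (QBar p) ({1} ∪ Set.range l) ^ m :
        Submodule (QBar p) (PadicAlgCl p))

/-- **Main result.** -/
theorem result (p : ℕ) [Fact p.Prime] (L : PadicAlgCl p → PadicAlgCl p) (hL : IsIwasawaLog p L) :
    (∀ U : Submodule (QBar p) (PadicAlgCl p), FiniteDimensional (QBar p) U →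
      finrank (QBar p) U +
          finrank (QBar p) (U ⊓ LogForms L : Submodule (QBar p) (PadicAlgCl p)) ^ 2 / 4
        ≤ finrank (QBar p) (U * U : Submodule (QBar p) (PadicAlgCl p))) ∧
    ∀ (n : ℕ) (l : Fin n → PadicAlgCl p),
      (∀ j, ∃ α : PadicAlgCl p, α ≠ 0 ∧ IsAlgebraic ℚ α ∧ l j = L α) → LinearIndependent ℚ l →
      FewNumbers l ∧ FewRelations l ∧ Expansion l := by
  have hL' : Pool.Agent.W245.PB.IsIwasawaLog p L := ⟨hL.mul, hL.prime, hL.ser⟩
  have hC := Pool.Agent.Y787.hypC_padic hL'
  refine ⟨fun U hU => Pool.Agent.L7h6.PF.sparse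
    (Lt := Pool.Agent.W254.PA.LtE (Pool.Agent.W254.PA.logs L)) U, ?_⟩
  intro n l hl hli
  have hcons := Pool.Agent.Y787.li_consP hL' l hl hli
  have hmem : ∀ j, l j ∈ (Pool.Agent.W254.PA.LtE (Pool.Agent.W254.PA.logs L) :
      Submodule (Pool.Agent.Y787.QC (PadicAlgCl p)) (PadicAlgCl p)) := fun j =>
    Pool.Agent.Y787.log_mem (hl j)
  refine ⟨⟨fun m θ h => Pool.Agent.L7h6.PF.one_number θ m l hmem hcons h,
    fun t m θ h => (Pool.Agent.L7h6.PF.poly_values θ m l hmem hcons h).2⟩,
    ⟨Pool.Agent.L7h6.PF.quadrics l hmem hcons,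
    fun m => Pool.Agent.L7h6.PF.relations l hmem hcons m⟩, ?_⟩
  intro U hU hn m
  have h1 := Pool.Agent.L7h6.PF.finrank_VV l hcons
  have hne : Pool.Agent.L7h6.PF.VV l ≠ ⊥ := by
    intro h0
    rw [h0, finrank_bot] at h1
    omega
  have h2 := Pool.Agent.L7h6.PF.expand_pow U (Pool.Agent.L7h6.PF.VV l)
    (Pool.Agent.L7h6.PF.VV_le l hmem) hne (by rw [h1]; exact Nat.succ_le_succ hn) m
  rw [h1] at h2
  exact h2

end Pool.Agent.Results.MP_c50dba_nt.PolynomialsInFewNumbers
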