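import Mathlib
import Pool.Agent.L7h6.PF.OL
import Pool.Agent.N770.PLogs
import Pool.Agent.W245.PB.PLog

/-!
# Random tuples of `p`-adic logarithms satisfy only linear relations modulo linear forms

Let `L` be the Iwasawa logarithm on the algebraic closure of `ℚ_p`.  Let `𝓛(γ)` be the space of all
linear combinations, with algebraic coefficients, of `1`, of finitely many given elements
`γ_1, ..., γ_g` of the algebraic closure of `ℚ_p` and of arbitrary `p`-adic logarithms of algebraic
numbers.  Let `t_1, ..., t_l` be elements which satisfy no polynomial relation of degree `< D` over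
the algebraic numbers.  For every `j ≤ n` let `λ_{j,1}, …, λ_{j,k}` be arbitrary `p`-adic logarithms of
algebraic numbers which are linearly independent over `ℚ` (for different `j` they may be the same),
and let `ζ_j` be arbitrary, for instance `0`.  For a matrix `a = (a_{j,i})` with entries in a finite
set `A` of rational numbers, for instance `{0, 1}`, let

  `L_j = ζ_j + ∑_i a_{j,i} λ_{j,i}`.

For all but `C |A|^(n k - δ k)` of the `|A|^(n k)` matrices `a` every polynomial `P(T, Y)` with algebraic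
coefficients, of degree at most `D`, which takes at `(t, L_1, …, L_n)` a value in `𝓛(γ)`, is of the form
`P₀(T) + c_1 Y_1 + ⋯ + c_n Y_n`.  Here `k ≥ k₀`, and `k₀`, `C` and `δ > 0` depend only on `p`, `l`, `n`,
`g` and `D`, but not on `λ`, `ζ`, `γ`, `t` and `A`.

For `l = g = 0` and `ζ = 0` this says in particular that the `p`-adic logarithms of `n` random products
of `k` given multiplicatively independent algebraic numbers (whose `p`-adic logarithms are linearly
independent over `ℚ`) satisfy no relation of degree at most `D` over the field of algebraic numbers,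
with exponentially few exceptions, and that moreover no nonlinear polynomial of degree at most `D` in
them is a linear form in `p`-adic logarithms of algebraic numbers.

The complex analogue is the starting result `MP_60829e_nt.RandomOnlyLinear`; the proof combines its
general part (`Pool.Agent.H351R3.Log.key2`, `Pool.Agent.Y918.OL.cube_count`) with the `p`-adic strong
six exponentials theorem (`Pool.Agent.N770.sixExp_padic`) and the theorem of Brumer
(`Pool.Agent.W245.PB`).
-/

set_option autoImplicit false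

namespace Pool.Agent.Results.MP_c50dba_nt.RandomOnlyLinear

/-- `L` is the Iwasawa logarithm on the algebraic closure of `ℚ_p`. -/
structure IsIwasawaLog (p : ℕ) [Fact p.Prime] (L : PadicAlgCl p → PadicAlgCl p) : Prop where
  mul : ∀ x y : PadicAlgCl p, x ≠ 0 → y ≠ 0 → L (x * y) = L x + L y
  prime : L ((p : ℕ) : PadicAlgCl p) = 0
  ser : ∀ z : PadicAlgCl p, ‖z‖ < 1 →
    HasSum (fun n : ℕ => (-1 : PadicAlgCl p) ^ n * z ^ (n + 1) / ((n : PadicAlgCl p) + 1))
      (L (1 + z))

variable {p : ℕ} [Fact p.Prime]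

/-- The space of all linear combinations with algebraic coefficients of `1`, of the numbers `γ j` and
of the values of `L` at algebraic numbers. -/
noncomputable def LinForms (L : PadicAlgCl p → PadicAlgCl p) {g : ℕ} (γ : Fin g → PadicAlgCl p) :
    Submodule (algebraicClosure ℚ (PadicAlgCl p)) (PadicAlgCl p) :=
  Submodule.span (algebraicClosure ℚ (PadicAlgCl p))
    ({1} ∪ {z | ∃ α : PadicAlgCl p, α ≠ 0 ∧ IsAlgebraic ℚ α ∧ z = L α} ∪ Set.range γ)

/-- The numbers `t i` satisfy no nonzero polynomial relation of degree less than `D` with algebraic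
coefficients. -/
def NoRelationBelow (D : ℕ) {l : ℕ} (t : Fin l → PadicAlgCl p) : Prop :=
  ∀ P : MvPolynomial (Fin l) (algebraicClosure ℚ (PadicAlgCl p)), P.totalDegree < D →
    MvPolynomial.aeval t P = 0 → P = 0

/-- Every polynomial `P(T, Y)` with algebraic coefficients and degree at most `D` which takes at
`(t, y)` a value in `LinForms L γ` has the form `P₀(T) + ∑ j, c j * Y j`. -/
def OnlyLinear (L : PadicAlgCl p → PadicAlgCl p) (D : ℕ) {g l n : ℕ} (γ : Fin g → PadicAlgCl p)
    (t : Fin l → PadicAlgCl p) (y : Fin n → PadicAlgCl p) : Prop :=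
  ∀ P : MvPolynomial (Fin l ⊕ Fin n) (algebraicClosure ℚ (PadicAlgCl p)), P.totalDegree ≤ D →
    MvPolynomial.aeval (Sum.elim t y) P ∈ LinForms L γ →
    ∃ (P₀ : MvPolynomial (Fin l) (algebraicClosure ℚ (PadicAlgCl p)))
      (c : Fin n → algebraicClosure ℚ (PadicAlgCl p)),
      P = MvPolynomial.rename Sum.inl P₀ +
        ∑ j, MvPolynomial.C (c j) * MvPolynomial.X (Sum.inr j)

/-- The numbers `L_j = ζ_j + ∑_i a_{j,i} λ_{j,i}`. -/
noncomputable def logs {n k : ℕ} (ζ : Fin n → PadicAlgCl p) (lam : Fin n → Fin k → PadicAlgCl p)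
    (a : Fin n → Fin k → ℚ) (j : Fin n) : PadicAlgCl p := ζ j + ∑ i : Fin k, (a j i : PadicAlgCl p) * lam j i

open Pool.Agent.H351R3.Log MvPolynomial
open Pool.Agent.Y787 (QC)
open Pool.Agent.W254.PA (LtE)

/-- The `p`-adic strong six exponentials theorem, as a kernel bound. -/
theorem KBd_of_sixExp {κ E : Type} [Field κ] [Field E] [Algebra κ E] {S : Submodule κ E}
    (h : Pool.Agent.N770.SixExp κ S) : KBd S 2 := by
  intro w hw
  by_contra hcon
  rw [not_le] at hcon
  obtain ⟨K', hK'⟩ : ∃ K' : Submodule κ E, K' = (LinearMap.ker (mulMap S w)).map S.subtype :=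
    ⟨_, rfl⟩
  have hrk : Module.rank κ K' = Module.rank κ (LinearMap.ker (mulMap S w)) := by
    rw [hK']
    exact (Submodule.equivMapOfInjective S.subtype S.injective_subtype _).rank_eq.symm
  rw [← hrk] at hcon
  have h3 : ((3 : ℕ) : Cardinal) ≤ Module.rank κ K' := by
    have h2 := Order.succ_le_of_lt hcon
    rw [Cardinal.succ_natCast] at h2
    exact_mod_cast h2
  obtain ⟨v, hv⟩ := exists_linearIndependent_of_le_rank h3
  have hmem : ∀ j, ((v j : K') : E) ∈ S ∧ w * ((v j : K') : E) ∈ S := by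
    intro j
    have h4 : ((v j : K') : E) ∈ (LinearMap.ker (mulMap S w)).map S.subtype :=
      hK' ▸ (v j).2
    rw [Submodule.mem_map] at h4
    obtain ⟨y, hy, hyv⟩ := h4
    rw [← hyv]
    refine ⟨y.2, ?_⟩
    rw [LinearMap.mem_ker, mulMap_apply, Submodule.mkQ_apply, Submodule.Quotient.mk_eq_zero] at hy
    exact hy
  exact h w hw (fun j => ((v j : K') : E)) (hv.map' K'.subtype (Submodule.ker_subtype K'))
    (fun j => (hmem j).1) (fun j => (hmem j).2)

theorem linForms_eq (L : PadicAlgCl p → PadicAlgCl p) {g : ℕ} (γ : Fin g → PadicAlgCl p) :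
    LinForms L γ = ((LtE (Pool.Agent.W254.PA.logs L) : Submodule (QC (PadicAlgCl p)) (PadicAlgCl p)) ⊔
      Submodule.span (QC (PadicAlgCl p)) (Set.range γ)) := by
  rw [LinForms, Submodule.span_union]
  rfl

open Classical in
/-- **Main result.** -/
theorem result (p : ℕ) [Fact p.Prime] (l n g D : ℕ) : ∃ (k₀ C : ℕ) (δ : ℝ), 0 < δ ∧
    ∀ L : PadicAlgCl p → PadicAlgCl p, IsIwasawaLog p L → ∀ k ≥ k₀,
    ∀ lam : Fin n → Fin k → PadicAlgCl p,
    (∀ j i, ∃ α : PadicAlgCl p, α ≠ 0 ∧ IsAlgebraic ℚ α ∧ lam j i = L α) →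
    (∀ j, LinearIndependent ℚ (lam j)) → ∀ A : Finset ℚ, A.Nonempty →
    ∀ (γ : Fin g → PadicAlgCl p) (ζ : Fin n → PadicAlgCl p) (t : Fin l → PadicAlgCl p),
    NoRelationBelow D t →
    (((Fintype.piFinset fun _ : Fin n => Fintype.piFinset fun _ : Fin k => A).filter
      (fun a : Fin n → Fin k → ℚ => ¬ OnlyLinear L D γ t (logs ζ lam a))).card : ℝ) ≤
      C * (A.card : ℝ) ^ ((n * k : ℝ) - δ * k) := by
  obtain ⟨k₀, C, δ, hδ, h⟩ := Pool.Agent.L7h6.PF.OL.tuples (QC (PadicAlgCl p)) (PadicAlgCl p) n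
    (Fin l) D (2 + (g + n) + (g + n))
  refine ⟨k₀, C, δ, hδ, fun L hL k hk lam halg hlam A hA γ ζ t ht => ?_⟩
  have hL' : Pool.Agent.W245.PB.IsIwasawaLog p L := ⟨hL.mul, hL.prime, hL.ser⟩
  set Lt : Submodule (QC (PadicAlgCl p)) (PadicAlgCl p) := LtE (Pool.Agent.W254.PA.logs L) with hLt
  have hrank : Module.rank (QC (PadicAlgCl p))
      (Submodule.span (QC (PadicAlgCl p)) (Set.range γ ∪ Set.range ζ)) ≤ (g + n : ℕ) := by
    refine (rank_span_le _).trans ?_
    refine (Cardinal.mk_union_le _ _).trans ?_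
    push_cast
    refine add_le_add ?_ ?_
    · refine Cardinal.mk_range_le.trans ?_
      simp
    · refine Cardinal.mk_range_le.trans ?_
      simp
  have hV := KBd_sup (κ := QC (PadicAlgCl p)) (C := PadicAlgCl p) Lt
    (Submodule.span (QC (PadicAlgCl p)) (Set.range γ ∪ Set.range ζ)) 2 (g + n)
    (KBd_of_sixExp (Pool.Agent.N770.sixExp_padic hL')) hrank
  have ht' : NLP (κ := QC (PadicAlgCl p)) (C := PadicAlgCl p)
      (Lt ⊔ Submodule.span (QC (PadicAlgCl p)) (Set.range γ ∪ Set.range ζ))
      (fun _ : Fin l => True) D t :=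
    ⟨fun P _ _ s _ => Or.inl fun i hi => absurd trivial hi, fun P hP h0 => ht P hP h0⟩
  have hli : ∀ j, LinearIndependent (QC (PadicAlgCl p)) (lam j) := fun j =>
    hL'.indep_of_indep (lam j) (fun i => by
      obtain ⟨α, h1, h2, h3⟩ := halg j i
      exact ⟨α, h1, h2, h3⟩) (hlam j)
  have hmem : ∀ j i, lam j i ∈
      (Lt ⊔ Submodule.span (QC (PadicAlgCl p)) (Set.range γ ∪ Set.range ζ)) := fun j i =>
    Submodule.mem_sup_left (Pool.Agent.Y787.log_mem (halg j i))
  refine le_trans ?_ (h k hk lam hli A hA _ hmem hV ζ (fun j =>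
    Submodule.mem_sup_right (Submodule.subset_span (Or.inr ⟨j, rfl⟩))) (fun _ => True) t ht')
  apply Nat.cast_le.2
  apply Finset.card_le_card
  intro a ha
  rw [Finset.mem_filter] at ha ⊢
  refine ⟨ha.1, fun hN => ha.2 ?_⟩
  intro P hP hPV
  rw [linForms_eq] at hPV
  refine Pool.Agent.L7h6.PF.OL.decompose P (hN.1 P hP ?_)
  have hle : (Lt ⊔ Submodule.span (QC (PadicAlgCl p)) (Set.range γ)) ≤
      Lt ⊔ Submodule.span (QC (PadicAlgCl p)) (Set.range γ ∪ Set.range ζ) :=
    sup_le_sup_left (Submodule.span_mono Set.subset_union_left) _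
  exact hle hPV

end Pool.Agent.Results.MP_c50dba_nt.RandomOnlyLinear
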