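import Pool.Agent.N778.VarT
import Pool.Agent.Y787.PInst

/-!
# Points on arbitrary varieties whose coordinates are `p`-adic linear forms in logarithms

Let `ℂ_p'` be the algebraic closure of `ℚ_p` and `L` the Iwasawa logarithm.  If `p`-adic logarithms of
algebraic numbers which are linearly independent over `ℚ` are algebraically independent, then an
algebraic set `V` in affine `m`-space over the field `ℚ̄` of algebraic numbers contains a point `y` whose
coordinates are linear forms in `1` and `p`-adic logarithms of algebraic numbers only if it contains a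
translate `y + R` with a linear space `R` defined over `ℚ̄` (the smallest one with `y - a ∈ R` for an
algebraic point `a`).  We prove for ARBITRARY algebraic sets, and families of them, that the points
`y` which are not on such translates are rare, unconditionally and for every prime `p`.

Let `K = ℚ` or `K = ℚ̄`, let `V_t`, `t` in `K ^ τ`, be a family of algebraic sets in affine `m`-space
(zeros of polynomials `F_s (Y, t)` with arbitrary coefficients in the algebraic closure of `ℚ_p`;
`τ = 0` is the case of one algebraic set), and let `ρ ≤ m`.  Call a point `y` exceptional if it is on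
some `V_t` such that `V_t` contains no translate `y + R` (over the algebraic closure of `ℚ_p`) with a
linear space `R ⊆ K ^ m` of dimension greater than `ρ`.

* Dimension.  Let `W` be a `K`-space of dimension `N` of linear forms in `1` and `p`-adic logarithms of
  algebraic numbers with coefficients in `K`.  The exceptional points of `W ^ m` lie in an algebraic
  subset, defined over `K`, of dimension at most `ρ N + (m - ρ) (m - 1) + τ`.
* Counting.  Let `l_1, ..., l_N` be `K`-linearly independent linear forms of this kind.  At most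
  `κ H ^ (ρ N + (m - ρ) (m - 1) + τ)` of the integer `m × N` matrices `A` with entries of absolute value
  at most `H` are such that `A l` is an exceptional point.
* Lower bound.  If `V` contains a translate `A₀ l + R`, where `A₀` is an integer matrix and `R` is a
  rational space, then at least `κ⁻¹ H ^ (N dim R)` of these matrices `A` are such that `A l` is in
  `V`.

For `ρ = 0` this says: outside of the union of the translates of linear spaces defined over `K` of
positive dimension which are contained in `V` there is only a set of points of dimension at most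
`m (m - 1)`, and only `κ H ^ (m (m - 1))` points `A l`.  This bound does not depend on `N`, on `p`, nor on
the degree of `V`.  All counterexamples to the question which come from `V` are among these points.

The complex analogue is the starting result `MP_60829e_nt.TranslatesInVarieties`, whose general part
(`Pool.Agent.N778.VarT`, `Pool.Agent.Y787.AS`) is combined here with the hyperplane case of the linear
subgroup theorem over the `p`-adic numbers (`Pool.Agent.W254.PA`, `Pool.Agent.Y787.PInst`).
-/

set_option autoImplicit false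

open MvPolynomial

namespace Pool.Agent.Results.MP_c50dba_nt.TranslatesInVarieties

/-- `L` is the Iwasawa logarithm on the algebraic closure of `ℚ_p`. -/
structure IsIwasawaLog (p : ℕ) [Fact p.Prime] (L : PadicAlgCl p → PadicAlgCl p) : Prop where
  mul : ∀ x y : PadicAlgCl p, x ≠ 0 → y ≠ 0 → L (x * y) = L x + L y
  prime : L ((p : ℕ) : PadicAlgCl p) = 0
  ser : ∀ z : PadicAlgCl p, ‖z‖ < 1 →
    HasSum (fun n : ℕ => (-1 : PadicAlgCl p) ^ n * z ^ (n + 1) / ((n : PadicAlgCl p) + 1))
      (L (1 + z))

variable {p : ℕ} [Fact p.Prime]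

/-- The linear forms in `1` and the values of `L` at algebraic numbers, with coefficients in `K`. -/
noncomputable def LogForms (K : Type) [Field K] [Algebra K (PadicAlgCl p)]
    (L : PadicAlgCl p → PadicAlgCl p) : Submodule K (PadicAlgCl p) :=
  Submodule.span K ({1} ∪ {z | ∃ α : PadicAlgCl p, α ≠ 0 ∧ IsAlgebraic ℚ α ∧ z = L α})

/-- The translate `y + R` (`R` extended to the algebraic closure of `ℚ_p`) is contained in the member
with parameter `t` of the family given by the equations `F`. -/
def TranslateIn (K : Type) [Field K] [Algebra K (PadicAlgCl p)] {m τ r : ℕ}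
    (F : Fin r → MvPolynomial (Fin m ⊕ Fin τ) (PadicAlgCl p)) (y : Fin m → PadicAlgCl p)
    (t : Fin τ → K) (R : Submodule K (Fin m → K)) : Prop :=
  ∀ s, ∀ c ∈ Submodule.span (PadicAlgCl p)
      {x : Fin m → PadicAlgCl p | ∃ v ∈ R, x = fun i => algebraMap K (PadicAlgCl p) (v i)},
    eval (Sum.elim (fun i => y i + c i) (fun a => algebraMap K (PadicAlgCl p) (t a))) (F s) = 0

/-- For some parameter `t` over `K` the point `y` is on the member with parameter `t` of the family, and
this member contains no translate `y + R` with `dim R > ρ`. -/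
def Exceptional (K : Type) [Field K] [Algebra K (PadicAlgCl p)] {m τ r : ℕ}
    (F : Fin r → MvPolynomial (Fin m ⊕ Fin τ) (PadicAlgCl p)) (ρ : ℕ) (y : Fin m → PadicAlgCl p) :
    Prop :=
  ∃ t : Fin τ → K,
    (∀ s, eval (Sum.elim y (fun a => algebraMap K (PadicAlgCl p) (t a))) (F s) = 0) ∧
    ∀ R : Submodule K (Fin m → K), TranslateIn K F y t R → Module.finrank K R ≤ ρ

/-- The bounds for the dimension and for the number of the exceptional points. -/
def UpperBounds (K : Type) [Field K] [Algebra K (PadicAlgCl p)]
    (L : PadicAlgCl p → PadicAlgCl p) : Prop :=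
  ∀ (m τ r ρ : ℕ), ρ ≤ m → ∀ F : Fin r → MvPolynomial (Fin m ⊕ Fin τ) (PadicAlgCl p),
    (∀ (W : Submodule K (PadicAlgCl p)) [FiniteDimensional K W], W ≤ LogForms K L →
      ∀ φ : Fin (ρ * Module.finrank K W + (m - ρ) * (m - 1) + τ + 1) → ((Fin m → W) →ₗ[K] K),
      ∃ P : MvPolynomial (Fin (ρ * Module.finrank K W + (m - ρ) * (m - 1) + τ + 1)) K, P ≠ 0 ∧
        ∀ y : Fin m → W, Exceptional K F ρ (fun i => (y i : PadicAlgCl p)) →
          eval (fun i => φ i y) P = 0) ∧
    ∀ (N : ℕ) (l : Fin N → PadicAlgCl p), (∀ j, l j ∈ LogForms K L) → LinearIndependent K l →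
      ∃ κ : ℕ, ∀ H : ℕ, 1 ≤ H →
        Set.ncard {A : Fin m → Fin N → ℤ | (∀ i j, |A i j| ≤ H) ∧
          Exceptional K F ρ (fun i => ∑ j, (A i j : PadicAlgCl p) * l j)} ≤
        κ * H ^ (ρ * N + (m - ρ) * (m - 1) + τ)

theorem exc_of {K : Type} [Field K] [Algebra K (PadicAlgCl p)] {m τ r : ℕ}
    {F : Fin r → MvPolynomial (Fin m ⊕ Fin τ) (PadicAlgCl p)} {ρ : ℕ} {y : Fin m → PadicAlgCl p}
    (h : Exceptional K F ρ y) : Pool.Agent.N778.VarT.Exc K F ρ y := by
  obtain ⟨t, h1, h2⟩ := h
  refine ⟨t, h1, ?_⟩
  rintro ⟨R, h3, h4⟩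
  exact absurd (h2 R h4) (by omega)

theorem upper_of {K : Type} [Field K] [CharZero K] [Countable K] [Algebra K (PadicAlgCl p)]
    {L : PadicAlgCl p → PadicAlgCl p} (hL : Pool.Agent.W254.PA.Hyp (LogForms K L)) :
    UpperBounds K L := by
  intro m τ r ρ hρ F
  refine ⟨fun W _ hW φ => ?_, fun N l hl hli => ?_⟩
  · obtain ⟨P, h1, h2⟩ := Pool.Agent.N778.VarT.exc_dim hL Pool.Agent.Y787.AS.wts_pt W hW hρ F φ
    exact ⟨P, h1, fun y hy => h2 y (exc_of hy)⟩
  · obtain ⟨κ, hκ⟩ := Pool.Agent.N778.VarT.exc_count hL Pool.Agent.Y787.AS.wts_pt hρ l hl hli F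
    refine ⟨κ, fun H hH => le_trans (Set.ncard_le_ncard ?_ ?_) (hκ H hH)⟩
    · rintro A ⟨h1, h2⟩
      exact ⟨h1, exc_of h2⟩
    · exact Pool.Agent.Y787.AS.box_finite' H _

/-- **Main result.** -/
theorem result (p : ℕ) [Fact p.Prime] (L : PadicAlgCl p → PadicAlgCl p) (hL : IsIwasawaLog p L) :
    UpperBounds ℚ L ∧ UpperBounds (algebraicClosure ℚ (PadicAlgCl p)) L ∧
    ∀ (m τ r N : ℕ) (F : Fin r → MvPolynomial (Fin m ⊕ Fin τ) (PadicAlgCl p))
      (l : Fin N → PadicAlgCl p) (A₀ : Fin m → Fin N → ℤ) (t : Fin τ → ℚ)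
      (R : Submodule ℚ (Fin m → ℚ)),
      TranslateIn ℚ F (fun i => ∑ j, (A₀ i j : PadicAlgCl p) * l j) t R →
      ∃ κ : ℕ, 1 ≤ κ ∧ ∀ H : ℕ, κ ≤ H → H ^ (Module.finrank ℚ R * N) ≤ κ *
        Set.ncard {A : Fin m → Fin N → ℤ | (∀ i j, |A i j| ≤ H) ∧
          ∀ s, eval (Sum.elim (fun i => ∑ j, (A i j : PadicAlgCl p) * l j)
            (fun a => algebraMap ℚ (PadicAlgCl p) (t a))) (F s) = 0} := by
  have hL' : Pool.Agent.W245.PB.IsIwasawaLog p L := ⟨hL.mul, hL.prime, hL.ser⟩
  refine ⟨upper_of (Pool.Agent.Y787.AS.hypQ_padic hL'), ?_, ?_⟩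
  · have := Pool.Agent.N778.VarT.countable_QC (E := PadicAlgCl p)
    exact upper_of (Pool.Agent.Y787.hypC_padic hL').hyp
  · intro m τ r N F l A₀ t R hR
    exact Pool.Agent.N778.VarT.lower l F A₀
      (fun a => algebraMap ℚ (PadicAlgCl p) (t a)) R hR

end Pool.Agent.Results.MP_c50dba_nt.TranslatesInVarieties
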